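import Mathlib
import Pool.Agent.H8.Sorg

set_option autoImplicit false

namespace Pool.Agent.Results.MP_d23b2b_gt.CH

open Set Filter Topology Function TopologicalSpace Pool.Agent.H8.Mich Pool.Agent.H8.Sorg

theorem result (h : Cardinal.continuum.{0} = Cardinal.aleph 1) :
    ∃ (X : Type) (_ : TopologicalSpace X), T35Space X ∧
      (∀ A : Set (X → ℝ), A ⊆ {f : X → ℝ | Continuous f} →
        ∃ D : Set (X → ℝ), D ⊆ A ∧ D.Countable ∧
          ∀ f ∈ A, ∃ u : ℕ → X → ℝ, (∀ k, u k ∈ D) ∧ Tendsto u atTop (𝓝 f)) ∧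
      ¬ ∃ N : Set (Set (X → ℝ)), N.Countable ∧ (∀ n ∈ N, n ⊆ {f : X → ℝ | Continuous f}) ∧
        ∀ f : X → ℝ, Continuous f → ∀ U : Set (X → ℝ), IsOpen U → f ∈ U →
          ∃ n ∈ N, f ∈ n ∧ n ⊆ U := by
  classical
  choose κ hκ using kap
  obtain ⟨r, x, wo, hseg, hx, hy⟩ := tower' h κ
  have hi : Injective (pr x) := by
    intro p q h1
    rcases p with a | s <;> rcases q with b | t
    · rcases trichotomous_of r a b with h | h | h
      exacts [absurd h1.symm ((hx b).2.1 a h).2, congrArg _ h, absurd h1 ((hx a).2.1 b h).2]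
    · exact absurd (show (x a).Finite from (show x a = t from h1) ▸ t.finite_toSet) (hx a).1
    · exact absurd (show (x b).Finite from (show ↑s = x b from h1) ▸ s.finite_toSet) (hx b).1
    · exact congrArg _ (Finset.coe_injective h1)
  letI : TopologicalSpace (J ⊕ Finset ℕ) := induced (ψ x) inferInstance
  have he : IsEmbedding (ψ x) :=
    ⟨⟨rfl⟩, fun p q hpq => hi (ch_inj (funext fun i => congrFun hpq (Sum.inl i)))⟩
  have nb : ∀ (O : Set (J ⊕ Finset ℕ)), IsOpen O → ∀ t ∈ O, ∀ᶠ N in atTop, ∀ p,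
      (∀ j < N, ch (pr x p) j = ch (pr x t) j) →
      ((ch (pr x t) = ch (pr x p) ∨ L (ch (pr x t)) (ch (pr x p))) ∨
        ∀ b, ch (x b) ≠ ch (pr x t)) → p ∈ O := fun O hO t ht => by
    obtain ⟨U, hU, rfl⟩ := isOpen_induced_iff.1 hO
    exact nbS hU ht
  refine ⟨J ⊕ Finset ℕ, inferInstance, he.t35Space, fun A hA => ?_, fun ⟨N, h1, _, h2⟩ => ?_⟩
  · let P : ∀ n, (Fin n → ℚ) × ℕ × ℕ × (Fin n → Finset ℕ) → (Fin n → Z) →
        (J ⊕ Finset ℕ → ℝ) → Prop := fun n i w f => f ∈ A ∧ ∀ l p,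
      (∀ j < i.2.2.1, ch (pr x p) j = w l j) → (w l = ch (pr x p) ∨ L (w l) (ch (pr x p))) →
        dist (f p) (i.1 l) < 1 / ((i.2.1 : ℝ) + 1)
    have : ∀ n i w, ∃ f, (∃ f, P n i w f) → P n i w f := fun n i w => by
      by_cases h1 : ∃ f, P n i w f
      exacts [h1.imp fun f hf _ => hf, ⟨0, fun h2 => absurd h2 h1⟩]
    choose G hG using this
    choose D h1 h2 h3 using fun n (i : (Fin n → ℚ) × ℕ × ℕ × (Fin n → Finset ℕ)) =>
      coin wo hseg (hκ n) (fun a b => hy a n b)
        (countable_range fun s : Finset ℕ => ch s) Finset.univ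
        {w | (∀ l, w l ∈ (range fun s : Finset ℕ => ch s) ∪ range fun a => ch (x a)) ∧
          (∀ l, ∀ j < i.2.2.1, w l j = ch (i.2.2.2 l) j) ∧ ∃ f, P n i w f}
        (fun t ht => ht.1) fun _ _ _ _ l hl => absurd (Finset.mem_univ l) hl
    have h4 : (⋃ n, ⋃ i, G n i '' D n i) ⊆ A := iUnion₂_subset fun n i => by
      rintro _ ⟨w, hw, rfl⟩
      exact (hG n i w (h1 n i hw).2.2).1
    refine ⟨_, h4, countable_iUnion fun n => countable_iUnion fun i => (h2 n i).image _,
      fun f hf => ?_⟩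
    obtain ⟨n, g, h5, h6⟩ := gam' wo hseg hx (A := ↥(⋃ n, ⋃ i, G n i '' D n i))
      (fun n g => {p | dist (g.1 p) (f p) < 1 / ((n : ℝ) + 1)}) (fun n g s hs => by
        filter_upwards [nb _ (isOpen_lt (Continuous.dist (hA (h4 g.2)) (hA hf)) continuous_const)
          _ hs] with N hN p hp
        exact hN p (fun j hj => by simpa [ch, pr] using hp j hj)
          (Or.inr fun b hb => by cases @hi (Sum.inl b) (Sum.inr s) (ch_inj hb)))
      fun n E hE => by
        obtain ⟨m, t, rfl⟩ := hE.fin_embedding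
        have hε : (0 : ℝ) < 1 / (((2 * n + 1 : ℕ) : ℝ) + 1) := Nat.one_div_pos_of_nat
        choose q hq using fun l => Metric.denseRange_iff.1 Rat.denseRange_cast (f (t l)) _ hε
        obtain ⟨N, hN⟩ := (eventually_all.2 fun l => nb _ (isOpen_lt
          (Continuous.dist (hA hf) continuous_const) continuous_const) (t l) (hq l)).exists
        have h7 : ∀ l, ∀ j < N, ch (pr x (t l)) j =
            ch ((Finset.range N).filter (· ∈ pr x (t l))) j := fun l j hj => by simp [ch, hj]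
        obtain ⟨d, hd, h8⟩ := h3 m (q, 2 * n + 1, N, fun l => (Finset.range N).filter
          (· ∈ pr x (t l))) (fun l => ch (pr x (t l))) ⟨fun l => by
            beta_reduce
            rcases t l with a | s
            exacts [Or.inr ⟨a, rfl⟩, Or.inl ⟨s, rfl⟩], h7, f, hf,
          fun l p h8 h9 => hN l p h8 (Or.inl h9)⟩
        refine ⟨⟨_, mem_iUnion₂.2 ⟨m, _, d, hd, rfl⟩⟩, ?_⟩
        rintro _ ⟨l, rfl⟩
        have h9 := (hG _ _ d (h1 _ _ hd).2.2).2 l (t l)
          (fun j hj => (h7 l j hj).trans ((h1 _ _ hd).2.1 l j hj).symm) (h8 l)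
        refine (dist_triangle_right _ _ (q l : ℝ)).trans_lt ((add_lt_add h9 (hq l)).trans_eq ?_)
        push_cast
        field_simp
        ring
    refine ⟨fun j => (g j).1, fun j => (g j).2,
      tendsto_pi_nhds.2 fun p => Metric.tendsto_nhds.2 fun ε hε => ?_⟩
    obtain ⟨m, hm⟩ := exists_nat_one_div_lt hε
    filter_upwards [h6 p, eventually_ge_atTop m] with j h7 h8
    exact lt_trans h7 ((Nat.one_div_le_one_div (h8.trans (h5 j))).trans_lt hm)
  · let δ : J → J ⊕ Finset ℕ → ℝ := fun b p => if ψ x p (Sum.inr b) = true then 1 else 0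
    choose M h3 h4 h5 using fun b => h2 (δ b)
      ((continuous_of_discreteTopology (f := fun t : Bool => if t = true then (1 : ℝ) else 0)).comp
        ((continuous_apply _).comp he.continuous)) {g | 0 < g (Sum.inl b)}
      (isOpen_lt continuous_const (continuous_apply _)) (by simp [δ, ψ, pr])
    have h6 : ∀ a b, δ a ∈ M b → a = b ∨ L (ch (x a)) (ch (x b)) := fun a b hab => by
      have h6 : 0 < δ a (Sum.inl b) := h5 b hab
      by_contra h7
      rw [not_or] at h7
      have h8 : ch (x a) ≠ ch (x b) := fun e =>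
        h7.1 (Sum.inl_injective (@hi (Sum.inl a) (Sum.inl b) (ch_inj e)))
      simp [δ, ψ, pr, h7.2, h8] at h6
    refine not_countable_univ ((h1.preimage_of_injOn (f := M) fun a _ b _ hab => ?_).mono
      fun b _ => h3 b)
    rcases h6 a b (hab ▸ h4 a) with h7 | h7
    · exact h7
    · exact ((h6 b a (hab ▸ h4 b)).resolve_right h7.asymm).symm

end Pool.Agent.Results.MP_d23b2b_gt.CH
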